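import Pool.Agent.Helper61.QT.GoalsG

/-!
# Project QT, packet T2: Liouville's formula
-/

set_option autoImplicit false

namespace Pool.Agent.Helper85.QT

open Pool.Agent.Helper61.QT

/-- the algebraic identity -/
theorem alg (E F G s E1 E2 F1 F2 G1 G2 E22 F12 G11 E12 : ℝ) (hE : E ≠ 0) (hs : s ≠ 0)
    (hG : E * G - F ^ 2 = s ^ 2) :
    (-(E22 + G11 - 2 * F12) / 2 +
      (G * E2 ^ 2 / 4 - F * E2 * G1 / 2 + E * G1 ^ 2 / 4 -
        (G * (E1 / 2) * (F2 - G1 / 2) -
          F * (E1 * G2 / 4 + (F1 - E2 / 2) * (F2 - G1 / 2)) +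
          E * (F1 - E2 / 2) * (G2 / 2))) / (E * G - F ^ 2)) / s =
    ((2 * E2 * F1 + 2 * E * F12 - (E2 * E2 + E * E22) - (F2 * E1 + F * E12)) * (2 * E * s) -
        (2 * E * F1 - E * E2 - F * E1) *
          (2 * E2 * s + 2 * E * ((E2 * G + E * G2 - 2 * F * F2) / (2 * s)))) / (2 * E * s) ^ 2 -
      (((E1 * G1 + E * G11) - (F1 * E2 + F * E12)) * (2 * E * s) -
        (E * G1 - F * E2) *
          (2 * E1 * s + 2 * E * ((E1 * G + E * G1 - 2 * F * F1) / (2 * s)))) / (2 * E * s) ^ 2 := by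
  have hG' : G = (s ^ 2 + F ^ 2) / E := by
    field_simp
    linarith
  rw [hG]
  rw [hG']
  field_simp
  ring

theorem fd_symm (E : ℝ × ℝ → ℝ) (hE : ContDiff ℝ 2 E) (z : ℝ × ℝ) :
    d1 (d2 E) z = d2 (d1 E) z := by
  have hd : DifferentiableAt ℝ (fderiv ℝ E) z :=
    ((hE.fderiv_right (m := 1) (by norm_num)).differentiable (by norm_num)) z
  have h1 : ∀ v w : ℝ × ℝ, fderiv ℝ (fun y => fderiv ℝ E y v) z w =
      fderiv ℝ (fderiv ℝ E) z w v := by
    intro v w
    rw [fderiv_clm_apply hd (differentiableAt_const v)]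
    simp
  have hsym : IsSymmSndFDerivAt ℝ E z :=
    hE.contDiffAt.isSymmSndFDerivAt (by simp)
  unfold d1 d2
  rw [h1, h1]
  exact hsym _ _

theorem fd_mul (f g : ℝ × ℝ → ℝ) (z v : ℝ × ℝ) (hf : DifferentiableAt ℝ f z)
    (hg : DifferentiableAt ℝ g z) :
    fderiv ℝ (fun w => f w * g w) z v = fderiv ℝ f z v * g z + f z * fderiv ℝ g z v := by
  rw [fderiv_fun_mul hf hg]
  simp
  ring

theorem fd_sub (f g : ℝ × ℝ → ℝ) (z v : ℝ × ℝ) (hf : DifferentiableAt ℝ f z)
    (hg : DifferentiableAt ℝ g z) :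
    fderiv ℝ (fun w => f w - g w) z v = fderiv ℝ f z v - fderiv ℝ g z v := by
  rw [fderiv_fun_sub hf hg]
  simp

theorem fd_div (f g : ℝ × ℝ → ℝ) (z v : ℝ × ℝ) (hf : DifferentiableAt ℝ f z)
    (hg : DifferentiableAt ℝ g z) (h0 : g z ≠ 0) :
    fderiv ℝ (fun w => f w / g w) z v =
      (fderiv ℝ f z v * g z - f z * fderiv ℝ g z v) / (g z) ^ 2 := by
  have hq : DifferentiableAt ℝ (fun w => f w / g w) z := by
    simp only [div_eq_mul_inv]
    exact hf.mul (hg.fun_inv h0)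
  have h1 := fd_mul (fun w => f w / g w) g z v hq hg
  have h2 : fderiv ℝ (fun w => f w / g w * g w) z v = fderiv ℝ f z v := by
    have he : (fun w => f w / g w * g w) =ᶠ[nhds z] f := by
      filter_upwards [hg.continuousAt.eventually_ne h0] with w hw
      exact div_mul_cancel₀ _ hw
    rw [he.fderiv_eq]
  rw [h2] at h1
  rw [h1]
  field_simp
  ring

theorem fd_sqrt (f : ℝ × ℝ → ℝ) (z v : ℝ × ℝ) (hf : DifferentiableAt ℝ f z) (h0 : f z ≠ 0) :
    fderiv ℝ (fun w => Real.sqrt (f w)) z v = fderiv ℝ f z v / (2 * Real.sqrt (f z)) := by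
  have h1 := (hf.hasFDerivAt.sqrt h0).fderiv
  rw [h1]
  simp
  ring

theorem goalT2 : G_T2 := by
  intro E F G hE hF hG hpos
  have hC1 : ∀ A : ℝ × ℝ → ℝ, ContDiff ℝ 2 A → ContDiff ℝ 1 (d1 A) ∧ ContDiff ℝ 1 (d2 A) := by
    intro A hA
    have h := hA.fderiv_right (m := 1) (by norm_num)
    exact ⟨h.clm_apply contDiff_const, h.clm_apply contDiff_const⟩
  have hle : ∀ A : ℝ × ℝ → ℝ, ContDiff ℝ 2 A → ContDiff ℝ 1 A := fun A hA => hA.of_le (by norm_num)
  have hW : ContDiff ℝ 1 (fun z => E z * G z - F z ^ 2) :=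
    ((hle E hE).mul (hle G hG)).sub ((hle F hF).pow 2)
  have hvol : ContDiff ℝ 1 (vol E F G) :=
    hW.sqrt (fun z => (hpos z).2.ne')
  have hvpos : ∀ z, 0 < vol E F G z := fun z => Real.sqrt_pos.mpr (hpos z).2
  have hDen : ContDiff ℝ 1 (fun z => 2 * E z * vol E F G z) :=
    (contDiff_const.mul (hle E hE)).mul hvol
  have hDne : ∀ z, 2 * E z * vol E F G z ≠ 0 := by
    intro z
    have h1 := (hpos z).1
    have h2 := hvpos z
    positivity
  have hN1 : ContDiff ℝ 1 (fun z => 2 * E z * d1 F z - E z * d2 E z - F z * d1 E z) :=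
    (((contDiff_const.mul (hle E hE)).mul (hC1 F hF).1).sub
      ((hle E hE).mul (hC1 E hE).2)).sub ((hle F hF).mul (hC1 E hE).1)
  have hN2 : ContDiff ℝ 1 (fun z => E z * d1 G z - F z * d2 E z) :=
    ((hle E hE).mul (hC1 G hG).1).sub ((hle F hF).mul (hC1 E hE).2)
  refine ⟨hN1.div hDen hDne, hN2.div hDen hDne, fun z => ?_⟩
  have dE : DifferentiableAt ℝ E z := (hle E hE).differentiable (by norm_num) z
  have dF : DifferentiableAt ℝ F z := (hle F hF).differentiable (by norm_num) z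
  have dG : DifferentiableAt ℝ G z := (hle G hG).differentiable (by norm_num) z
  have dE1 : DifferentiableAt ℝ (d1 E) z := (hC1 E hE).1.differentiable (by norm_num) z
  have dE2 : DifferentiableAt ℝ (d2 E) z := (hC1 E hE).2.differentiable (by norm_num) z
  have dF1 : DifferentiableAt ℝ (d1 F) z := (hC1 F hF).1.differentiable (by norm_num) z
  have dG1 : DifferentiableAt ℝ (d1 G) z := (hC1 G hG).1.differentiable (by norm_num) z
  have dN1 := hN1.differentiable (by norm_num) z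
  have dN2 := hN2.differentiable (by norm_num) z
  have dD := hDen.differentiable (by norm_num) z
  have dv := hvol.differentiable (by norm_num) z
  -- derivative of vol
  have hv : ∀ v : ℝ × ℝ, fderiv ℝ (vol E F G) z v =
      (fderiv ℝ E z v * G z + E z * fderiv ℝ G z v - 2 * F z * fderiv ℝ F z v) /
        (2 * vol E F G z) := by
    intro v
    have h1 := fd_sqrt (fun z => E z * G z - F z ^ 2) z v
      (hW.differentiable (by norm_num) z) (hpos z).2.ne'
    have h2 : fderiv ℝ (fun z => E z * G z - F z ^ 2) z v =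
        fderiv ℝ E z v * G z + E z * fderiv ℝ G z v - 2 * F z * fderiv ℝ F z v := by
      rw [fd_sub (fun z => E z * G z) (fun z => F z ^ 2) z v (dE.mul dG) (dF.pow 2)]
      rw [fd_mul E G z v dE dG]
      have h3 : (fun w => F w ^ 2) = fun w => F w * F w := by
        funext w
        ring
      have h4 := fd_mul F F z v dF dF
      rw [← h3] at h4
      rw [h4]
      ring
    rw [h2] at h1
    exact h1
  have hD : ∀ v : ℝ × ℝ, fderiv ℝ (fun z => 2 * E z * vol E F G z) z v =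
      2 * fderiv ℝ E z v * vol E F G z + 2 * E z * fderiv ℝ (vol E F G) z v := by
    intro v
    rw [fd_mul (fun z => 2 * E z) (vol E F G) z v (dE.const_mul 2) dv]
    have : fderiv ℝ (fun z => 2 * E z) z v = 2 * fderiv ℝ E z v := by
      rw [fderiv_const_mul dE]
      simp
    rw [this]
  have hdN1 : fderiv ℝ (fun z => 2 * E z * d1 F z - E z * d2 E z - F z * d1 E z) z (0, 1) =
      (2 * d2 E z * d1 F z + 2 * E z * d1 (d2 F) z - (d2 E z * d2 E z + E z * d2 (d2 E) z) -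
        (d2 F z * d1 E z + F z * d1 (d2 E) z)) := by
    rw [fd_sub (fun z => 2 * E z * d1 F z - E z * d2 E z) (fun z => F z * d1 E z) z _
      (((dE.const_mul 2).mul dF1).sub (dE.mul dE2)) (dF.mul dE1)]
    rw [fd_sub (fun z => 2 * E z * d1 F z) (fun z => E z * d2 E z) z _
      ((dE.const_mul 2).mul dF1) (dE.mul dE2)]
    rw [fd_mul (fun z => 2 * E z) (d1 F) z _ (dE.const_mul 2) dF1,
      fd_mul E (d2 E) z _ dE dE2, fd_mul F (d1 E) z _ dF dE1]
    have : fderiv ℝ (fun z => 2 * E z) z (0, 1) = 2 * fderiv ℝ E z (0, 1) := by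
      rw [fderiv_const_mul dE]
      simp
    rw [this, fd_symm F hF z, fd_symm E hE z]
    rfl
  have hdN2 : fderiv ℝ (fun z => E z * d1 G z - F z * d2 E z) z (1, 0) =
      ((d1 E z * d1 G z + E z * d1 (d1 G) z) - (d1 F z * d2 E z + F z * d1 (d2 E) z)) := by
    rw [fd_sub (fun z => E z * d1 G z) (fun z => F z * d2 E z) z _
      (dE.mul dG1) (dF.mul dE2)]
    rw [fd_mul E (d1 G) z _ dE dG1, fd_mul F (d2 E) z _ dF dE2]
    rfl
  have hP : d2 (PP E F G) z = _ :=
    fd_div (fun z => 2 * E z * d1 F z - E z * d2 E z - F z * d1 E z)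
      (fun z => 2 * E z * vol E F G z) z (0, 1) dN1 dD (hDne z)
  have hQ : d1 (QQ E F G) z = _ :=
    fd_div (fun z => E z * d1 G z - F z * d2 E z)
      (fun z => 2 * E z * vol E F G z) z (1, 0) dN2 dD (hDne z)
  rw [hP, hQ, hD, hD, hdN1, hdN2, hv, hv]
  have hs2 : E z * G z - F z ^ 2 = vol E F G z ^ 2 := (Real.sq_sqrt (hpos z).2.le).symm
  exact alg (E z) (F z) (G z) (vol E F G z) (d1 E z) (d2 E z) (d1 F z) (d2 F z) (d1 G z) (d2 G z)
    (d2 (d2 E) z) (d1 (d2 F) z) (d1 (d1 G) z) (d1 (d2 E) z) (hpos z).1.ne' (hvpos z).ne' hs2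

end Pool.Agent.Helper85.QT
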